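import Pool.Agent.H84.ND.Targets4
import Pool.Agent.H96.SM.IRR

/-!
# MP_70ba79_ag, board ndc, row FSG: the curve has finitely many singular points
-/

set_option autoImplicit false

namespace Pool.Agent.H13.ND

open MvPolynomial SC Pool.Agent.H27.LV Pool.Agent.H84.SM Pool.Agent.H84.ND

section

variable {k : Type} [Field k]

private lemma eval_smul' {G : MvPolynomial (Fin 3) k} {d : ℕ} (hG : G.IsHomogeneous d) (u : k)
    (a : Fin 3 → k) : eval (u • a) G = u ^ d * eval a G := by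
  rw [eval_eq', eval_eq', Finset.mul_sum]
  refine Finset.sum_congr rfl fun m hm => ?_
  have h1 : m 0 + m 1 + m 2 = d := by
    have h2 := hG (mem_support_iff.1 hm)
    rw [← h2, Finsupp.weight_apply, Finsupp.sum_fintype _ _ (by intro i; simp),
      Fin.sum_univ_three]
    simp
  rw [Fin.prod_univ_three, Fin.prod_univ_three, ← h1]
  simp only [Pi.smul_apply, smul_eq_mul, mul_pow, pow_add]
  ring

/-- an irreducible factor of a squarefree form does not divide all derivatives -/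
private lemma exists_not_dvd [CharZero k] {G H : MvPolynomial (Fin 3) k} {e : ℕ}
    (hs : Squarefree G) (hH : Irreducible H) (hHe : H.IsHomogeneous e) (hdvd : H ∣ G) :
    ∃ i, ¬ H ∣ pderiv i G := by
  by_contra hcon
  push Not at hcon
  obtain ⟨K, rfl⟩ := hdvd
  have hHp : Prime H := UniqueFactorizationMonoid.irreducible_iff_prime.1 hH
  have hHK : ¬ H ∣ K := by
    rintro ⟨K', rfl⟩
    exact hH.not_isUnit (hs H ⟨K', by ring⟩)
  have h1 : ∀ i, H ∣ pderiv i H := by
    intro i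
    have h2 := hcon i
    rw [Derivation.leibniz, smul_eq_mul, smul_eq_mul] at h2
    have h3 : H ∣ K * pderiv i H := (dvd_add_right (Dvd.intro _ rfl)).1 h2
    exact (hHp.dvd_or_dvd h3).resolve_left hHK
  have he : e ≠ 0 := by
    rintro rfl
    have h2 := hHe.totalDegree hH.ne_zero
    obtain ⟨c, hc⟩ := totalDegree_eq_zero_iff_eq_C.1 h2 |>.symm ▸ (⟨coeff 0 H, rfl⟩ :
      ∃ c, C (coeff 0 H) = (C c : MvPolynomial (Fin 3) k))
    rw [hc] at h2
    have h3 : H = C (coeff 0 H) := totalDegree_eq_zero_iff_eq_C.1 (hHe.totalDegree hH.ne_zero)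
    have h4 : coeff 0 H ≠ 0 := by
      intro h5
      rw [h5, C_0] at h3
      exact hH.ne_zero h3
    apply hH.not_isUnit
    rw [h3]
    exact (IsUnit.mk0 _ h4).map C
  have h2 : ∀ i, pderiv i H = 0 := by
    intro i
    by_contra hne
    obtain ⟨Q, hQ⟩ := h1 i
    have hQ0 : Q ≠ 0 := by
      rintro rfl
      rw [mul_zero] at hQ
      exact hne hQ
    have h3 := totalDegree_mul_of_isDomain hH.ne_zero hQ0
    rw [← hQ, hHe.totalDegree hH.ne_zero, (hHe.pderiv (i := i)).totalDegree hne] at h3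
    omega
  have h3 := hHe.sum_X_mul_pderiv
  simp only [h2, mul_zero, Finset.sum_const_zero] at h3
  have h4 : (e : MvPolynomial (Fin 3) k) * H = 0 := by
    rw [← nsmul_eq_mul]
    exact h3.symm
  rcases mul_eq_zero.1 h4 with h5 | h5
  · exact he (Nat.cast_eq_zero.1 h5)
  · exact hH.ne_zero h5

end

theorem pf_FSG (hFNS : Pool.Agent.H84.SM.T_FNS) : T_FSG := by
  classical
  intro k _ _ _ G d hd hG hs
  have hG0 : G ≠ 0 := hs.ne_zero
  obtain ⟨f, hf, hfa⟩ := WfDvdMonoid.exists_factors G hG0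
  have hfG : ∀ H ∈ f, H ∣ G := fun H hH => (Multiset.dvd_prod hH).trans hfa.dvd
  -- the common zeros for each factor
  have hT : ∀ H : MvPolynomial (Fin 3) k, ∃ T : Finset (Fin 3 → k), H ∈ f →
      (∀ a ∈ T, a ≠ 0) ∧ ∀ a : Fin 3 → k, Sing G a → eval a H = 0 →
        ∃ a' ∈ T, ∃ z : k, z ≠ 0 ∧ a = z • a' := by
    intro H
    by_cases hH : H ∈ f
    · have hHi := hf H hH
      obtain ⟨K, hK⟩ := hfG H hH
      have hK0 : K ≠ 0 := by
        rintro rfl
        rw [mul_zero] at hK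
        exact hG0 hK
      obtain ⟨e, e', -, he, -⟩ := Pool.Agent.H96.SM.homog_mul (hK ▸ hG) hHi.ne_zero hK0
      obtain ⟨i, hi⟩ := exists_not_dvd hs hHi he (hfG H hH)
      obtain ⟨T, hT1, hT2⟩ := hFNS k H (pderiv i G) e (d - 1) he hG.pderiv hHi hi
      exact ⟨T, fun _ => ⟨fun a ha => (hT1 a ha).1, fun a ha haH =>
        hT2 a ha.1 haH (ha.2 i)⟩⟩
    · exact ⟨∅, fun h => absurd h hH⟩
  choose T hT using hT
  refine ⟨(f.toFinset.biUnion T).filter (Sing G), fun s hs' => (Finset.mem_filter.1 hs').2, ?_⟩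
  intro s hS
  have hsG : eval s G = 0 := by
    have h1 := congrArg (eval s) hG.sum_X_mul_pderiv
    rw [map_sum, map_nsmul, nsmul_eq_mul] at h1
    have h2 : ∀ i, eval s (X i * pderiv i G) = 0 := fun i => by rw [map_mul, hS.2 i, mul_zero]
    rw [Finset.sum_congr rfl fun i _ => h2 i, Finset.sum_const_zero] at h1
    rcases mul_eq_zero.1 h1.symm with h3 | h3
    · exact absurd (Nat.cast_eq_zero.1 h3) (by omega)
    · exact h3
  have hprod : eval s f.prod = 0 := by
    obtain ⟨u, hu⟩ := hfa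
    have h1 := congrArg (eval s) hu
    rw [map_mul, hsG] at h1
    exact (mul_eq_zero.1 h1).resolve_right ((u.isUnit.map (eval s)).ne_zero)
  rw [map_multiset_prod, Multiset.prod_eq_zero_iff, Multiset.mem_map] at hprod
  obtain ⟨H, hH, hsH⟩ := hprod
  obtain ⟨h1, h2⟩ := hT H hH
  obtain ⟨a, ha, z, hz, rfl⟩ := h2 s hS hsH
  refine ⟨a, Finset.mem_filter.2 ⟨Finset.mem_biUnion.2 ⟨H, Multiset.mem_toFinset.2 hH, ha⟩,
    h1 a ha, fun i => ?_⟩, z, hz, rfl⟩
  have h3 := hS.2 i
  rw [eval_smul' hG.pderiv] at h3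
  exact (mul_eq_zero.1 h3).resolve_left (pow_ne_zero _ hz)

end Pool.Agent.H13.ND
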