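import Pool.Agent.H84.ND.Targets2
import Pool.Agent.H16.SM.JPC
import Pool.Agent.H16.SM.SCT

/-!
# MP_70ba79_ag, board ndc, row NGR: the coordinates `λ`, `g` of a curve are regular at a place
over a node
-/

set_option autoImplicit false

namespace Pool.Agent.H13.ND

open MvPolynomial SC Pool.Agent.H27.LV Pool.Agent.H84.SM Pool.Agent.H84.ND

lemma pd_comm {k σ : Type} [Field k] (i j : σ) (p : MvPolynomial σ k) :
    pderiv i (pderiv j p) = pderiv j (pderiv i p) := by
  classical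
  ext m
  rw [coeff_pderiv, coeff_pderiv, coeff_pderiv, coeff_pderiv, add_right_comm]
  by_cases h : i = j
  · subst h
    rfl
  · rw [Finsupp.add_apply, Finsupp.add_apply, Finsupp.single_eq_of_ne (Ne.symm h),
      Finsupp.single_eq_of_ne h]
    push_cast
    ring

lemma sum3 {M : Type} [AddCommMonoid M] (j : Fin 3) (f : Fin 3 → M) :
    ∑ i, f i = f j + f (j + 1) + f (j + 2) := by
  rw [Fin.sum_univ_three]
  fin_cases j
  · rfl
  · show f 0 + f 1 + f 2 = f 1 + f 2 + f 0
    rw [add_assoc, add_comm]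
  · show f 0 + f 1 + f 2 = f 2 + f 0 + f 1
    abel

section

variable {k K : Type} [Field k] [Field K] [Algebra k K] {v : DV k K}

lemma unit_of {z : K} {c : k} (hc : c ≠ 0) (h : ge v 1 (z - algebraMap k K c)) :
    z ≠ 0 ∧ v.ord z = 0 := by
  have hc0 : algebraMap k K c ≠ 0 := (_root_.map_ne_zero _).2 hc
  have hz : z ≠ 0 := by
    rintro rfl
    rw [zero_sub] at h
    have h1 := h.neg
    rw [neg_neg] at h1
    exact hc (const_eq_zero v one_pos h1)
  refine ⟨hz, ?_⟩
  have h0 : ge v 0 z := by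
    have h1 := (h.mono (by norm_num : (0 : ℤ) ≤ 1)).add (ge_const v c)
    rwa [sub_add_cancel] at h1
  have h1 : 0 ≤ v.ord z := h0.resolve_left hz
  by_contra hne
  have h2 : ge v 1 z := Or.inr (by omega)
  have h3 := h2.sub h
  rw [sub_sub_cancel] at h3
  exact hc (const_eq_zero v one_pos h3)

lemma ge_div {t : ℤ} {x y : K} (hx : ge v t x) (hy : y ≠ 0) : ge v (t - v.ord y) (x / y) := by
  rcases hx with h | h
  · left; rw [h, zero_div]
  by_cases hx0 : x = 0
  · left; rw [hx0, zero_div]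
  right
  rw [v.ord_div hx0 hy]
  omega

/-- `ge v 0` for a quotient -/
lemma ge_div0 {x y : K} (hy : y ≠ 0) (hx : ge v (v.ord y) x) : ge v 0 (x / y) := by
  have := ge_div hx hy
  rwa [sub_self] at this

lemma ge_mul0 {t : ℤ} {x y : K} (hx : ge v 0 x) (hy : ge v t y) : ge v t (x * y) := by
  have := hx.mul hy
  rwa [zero_add] at this

end

theorem pf_NGR : T_NGR := by
  intro k K _ _ _ _ _ G d hd hG s j h r1 r2 hN hsj v θ x hθ hxj hx hG0
  have _ := hsj
  have _ := hG
  -- regularity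
  have hx0 : ∀ i, 0 ≤ v.ord (x i) := by
    intro i
    have h1 := ((hx i).mono (by norm_num : (0 : ℤ) ≤ 1)).add (ge_const v (s i))
    rw [sub_add_cancel] at h1
    rcases h1 with h1 | h1
    · rw [h1, v.ord_zero]
    · exact h1
  have hev : ∀ P : MvPolynomial (Fin 3) k, ge v 1 (aeval x P - algebraMap k K (eval s P)) :=
    fun P => Pool.Agent.H16.SM.ge_aeval v x s hx0 hx P
  have hreg : ∀ P : MvPolynomial (Fin 3) k, ge v 0 (aeval x P) := by
    intro P
    have h1 := ((hev P).mono (by norm_num : (0 : ℤ) ≤ 1)).add (ge_const v (eval s P))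
    rwa [sub_add_cancel] at h1
  obtain ⟨hH0, hHo⟩ := unit_of hN.hs (hev h)
  have hd0 : (algebraMap k K (d : k)) ≠ 0 := (_root_.map_ne_zero _).2
    (Nat.cast_ne_zero.2 (by omega))
  have hdo : v.ord (algebraMap k K (d : k)) = 0 := v.ord_base _
  set G1 := aeval x (pderiv (j + 1) G) with hG1
  set G2 := aeval x (pderiv (j + 2) G) with hG2
  set R1 := aeval x r1 with hR1
  set R2 := aeval x r2 with hR2
  set D := algebraMap k K (d : k) * aeval x h * aeval x G with hD
  have hD0 : D ≠ 0 := mul_ne_zero (mul_ne_zero hd0 hH0) hG0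
  have hDo : v.ord D = v.ord (aeval x G) := by
    rw [hD, v.ord_mul' (mul_ne_zero hd0 hH0) hG0, v.ord_mul' hd0 hH0, hdo, hHo]
    ring
  have heq : D = G1 * R1 + G2 * R2 := by
    have h1 := congrArg (aeval x) hN.eq
    rw [map_mul, map_mul, map_add, map_mul, map_mul, algHom_C] at h1
    exact h1
  -- chain rule
  have hxj0 : θ (x j) = 0 := by rw [hxj]; exact θ.map_one_eq_zero
  have hch : ∀ P : MvPolynomial (Fin 3) k, θ (aeval x P) =
      aeval x (pderiv (j + 1) P) * θ (x (j + 1)) + aeval x (pderiv (j + 2) P) * θ (x (j + 2)) := by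
    intro P
    rw [Pool.Agent.H16.SM.chain θ x P, sum3 j, hxj0, mul_zero, zero_add]
  set lam := θ (aeval x G) / D with hlam
  have hlam0 : ge v 0 lam := ge_div0 hD0 (by rw [hDo]; exact hθ _ hG0)
  have hlamD : lam * D = θ (aeval x G) := by rw [hlam, div_mul_cancel₀ _ hD0]
  set E1 := θ (x (j + 1)) - lam * R1 with hE1
  set E2 := θ (x (j + 2)) - lam * R2 with hE2
  have hE : G1 * E1 + G2 * E2 = 0 := by
    have h1 := hch G
    rw [← hlamD, heq] at h1
    rw [hE1, hE2]
    linear_combination -h1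
  obtain ⟨g, hg1, hg2⟩ : ∃ g : K, E1 = g * G2 ∧ E2 = -(g * G1) := by
    by_cases h2 : G2 = 0
    · have h1 : G1 ≠ 0 := by
        intro h1
        apply hD0
        rw [heq, h1, h2, zero_mul, zero_mul, add_zero]
      refine ⟨-E2 / G1, ?_, ?_⟩
      · rw [h2, mul_zero]
        rw [h2, zero_mul, add_zero] at hE
        exact (mul_eq_zero.1 hE).resolve_left h1
      · rw [div_mul_cancel₀ _ h1, neg_neg]
    · refine ⟨E1 / G2, ?_, ?_⟩
      · rw [div_mul_cancel₀ _ h2]
      · have h3 : G2 * E2 = -(G1 * E1) := by linear_combination hE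
        field_simp
        linear_combination h3
  -- the smallest order
  obtain ⟨ν, hν1, hν2, hν⟩ : ∃ ν : ℤ, ge v ν G1 ∧ ge v ν G2 ∧
      ((G1 ≠ 0 ∧ v.ord G1 = ν) ∨ (G2 ≠ 0 ∧ v.ord G2 = ν)) := by
    by_cases h1 : G1 = 0
    · have h2 : G2 ≠ 0 := by
        intro h2
        apply hD0
        rw [heq, h1, h2, zero_mul, zero_mul, add_zero]
      exact ⟨v.ord G2, Or.inl h1, Or.inr le_rfl, Or.inr ⟨h2, rfl⟩⟩
    · by_cases h2 : G2 = 0
      · exact ⟨v.ord G1, Or.inr le_rfl, Or.inl h2, Or.inl ⟨h1, rfl⟩⟩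
      · rcases le_total (v.ord G1) (v.ord G2) with h3 | h3
        · exact ⟨v.ord G1, Or.inr le_rfl, Or.inr h3, Or.inl ⟨h1, rfl⟩⟩
        · exact ⟨v.ord G2, Or.inr h3, Or.inr le_rfl, Or.inr ⟨h2, rfl⟩⟩
  have hmem : ∀ r : MvPolynomial (Fin 3) k,
      r ∈ Ideal.span {pderiv (j + 1) G, pderiv (j + 2) G} → ge v ν (aeval x r) := by
    intro r hr
    obtain ⟨p, q, rfl⟩ := Ideal.mem_span_pair.1 hr
    rw [map_add, map_mul, map_mul]
    exact (ge_mul0 (hreg p) hν1).add (ge_mul0 (hreg q) hν2)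
  have hR1ν := hmem r1 hN.m1
  have hR2ν := hmem r2 hN.m2
  -- the derivatives of `G1`, `G2`
  have hθν : ∀ z : K, ge v ν z → ge v ν (θ z) := by
    intro z hz
    rcases hz with hz | hz
    · rw [hz, map_zero]; exact ge_zero v ν
    · by_cases hz0 : z = 0
      · rw [hz0, map_zero]; exact ge_zero v ν
      · exact (hθ z hz0).mono hz
  have hx1 : θ (x (j + 1)) = lam * R1 + g * G2 := by rw [← hg1, hE1]; ring
  have hx2 : θ (x (j + 2)) = lam * R2 - g * G1 := by
    have h1 : E2 = -(g * G1) := hg2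
    rw [hE2] at h1
    linear_combination h1
  have hgam : ∀ P : MvPolynomial (Fin 3) k, ge v ν (aeval x P) →
      ge v ν (g * (aeval x (pderiv (j + 1) P) * G2 - aeval x (pderiv (j + 2) P) * G1)) := by
    intro P hP
    have h1 := hθν _ hP
    rw [hch P, hx1, hx2] at h1
    have h2 : ge v ν (lam * (aeval x (pderiv (j + 1) P) * R1 + aeval x (pderiv (j + 2) P) * R2)) :=
      ge_mul0 hlam0 ((ge_mul0 (hreg _) hR1ν).add (ge_mul0 (hreg _) hR2ν))
    have h3 := h1.sub h2
    have e : aeval x (pderiv (j + 1) P) * (lam * R1 + g * G2) +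
        aeval x (pderiv (j + 2) P) * (lam * R2 - g * G1) -
        lam * (aeval x (pderiv (j + 1) P) * R1 + aeval x (pderiv (j + 2) P) * R2) =
        g * (aeval x (pderiv (j + 1) P) * G2 - aeval x (pderiv (j + 2) P) * G1) := by ring
    rwa [e] at h3
  have hga := hgam _ hν1
  have hgb := hgam _ hν2
  rw [pd_comm (j + 2) (j + 1) G] at hga
  set Haa := aeval x (pderiv (j + 1) (pderiv (j + 1) G)) with hHaa
  set Hab := aeval x (pderiv (j + 1) (pderiv (j + 2) G)) with hHab
  set Hbb := aeval x (pderiv (j + 2) (pderiv (j + 2) G)) with hHbb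
  -- the determinant
  have hdet : ge v 1 (aeval x (pderiv (j + 1) (pderiv (j + 1) G) *
      pderiv (j + 2) (pderiv (j + 2) G) - pderiv (j + 1) (pderiv (j + 2) G) ^ 2) -
      algebraMap k K (eval s (pderiv (j + 1) (pderiv (j + 1) G) *
      pderiv (j + 2) (pderiv (j + 2) G) - pderiv (j + 1) (pderiv (j + 2) G) ^ 2))) := hev _
  obtain ⟨hΔ0, hΔo⟩ := unit_of (by
    rw [map_sub, map_mul, map_pow]
    exact hN.det) hdet
  rw [map_sub, map_mul, map_pow] at hΔ0 hΔo
  set Δ := Haa * Hbb - Hab ^ 2 with hΔ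
  have k1 : ge v ν (Δ * (g * G2)) := by
    have h1 := (ge_mul0 (hreg (pderiv (j + 2) (pderiv (j + 2) G))) hga).sub
      (ge_mul0 (hreg (pderiv (j + 1) (pderiv (j + 2) G))) hgb)
    have e : Hbb * (g * (Haa * G2 - Hab * G1)) - Hab * (g * (Hab * G2 - Hbb * G1)) =
        Δ * (g * G2) := by rw [hΔ]; ring
    rwa [e] at h1
  have k2 : ge v ν (Δ * (g * G1)) := by
    have h1 := (ge_mul0 (hreg (pderiv (j + 1) (pderiv (j + 2) G))) hga).sub
      (ge_mul0 (hreg (pderiv (j + 1) (pderiv (j + 1) G))) hgb)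
    have e : Hab * (g * (Haa * G2 - Hab * G1)) - Haa * (g * (Hab * G2 - Hbb * G1)) =
        Δ * (g * G1) := by rw [hΔ]; ring
    rwa [e] at h1
  have hcan : ∀ y : K, ge v ν (Δ * y) → ge v ν y := by
    intro y hy
    have h1 := ge_div hy hΔ0
    rw [mul_div_cancel_left₀ _ hΔ0, hΔo, sub_zero] at h1
    exact h1
  have hg0 : ge v 0 g := by
    rcases hν with ⟨h1, h2⟩ | ⟨h1, h2⟩
    · have h3 := ge_div0 h1 (by rw [h2]; exact hcan _ k2)
      rwa [mul_div_cancel_right₀ _ h1] at h3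
    · have h3 := ge_div0 h1 (by rw [h2]; exact hcan _ k1)
      rwa [mul_div_cancel_right₀ _ h1] at h3
  exact ⟨lam, g, hlam0, hg0, hx1, hx2⟩

end Pool.Agent.H13.ND
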